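import Pool.Agent.Lib.MP_1a91b9_nuY.AN.Defs

/-!
# Twisted base: Hecke characters over extensions

`HF.over`: if `Ψ` is a Hecke character of `F` then `Ψ ∘ N_{F'/F}` is one of `F'`. `HF.ofHC`: the character `psi F` of the curve.
-/

set_option autoImplicit false

namespace Pool.Agent.Lib.MP_1a91b9_nuY

variable [Pool.Agent.Lib.MP_1a91b9_nuT.CD]

open Pool.Agent.Lib.MP_1a91b9_nuT hiding cj
open NumberField IsDedekindDomain Module Pool.Agent.Lib.MP_1a91b9_nt
  Pool.Agent.Lib.MP_1a91b9_nuT.S4 Pool.Agent.Lib.MP_1a91b9_nuG Pool.Agent.Lib.MP_1a91b9_nuX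
  Pool.Agent.Lib.MP_1a91b9_nuW

universe u

section
variable {F F' : Type*} [Field F] [NumberField F] [Field F'] [NumberField F'] [Algebra F F']

/-- congruence of relative norms -/
theorem intNorm_congr (c : 𝓞 F) (z : 𝓞 F') (h : algebraMap (𝓞 F) (𝓞 F') c ∣ z - 1) :
    c ∣ Algebra.intNorm (𝓞 F) (𝓞 F') z - 1 := by
  classical
  obtain ⟨y, hy⟩ := h
  by_cases hc : c = 0
  · rw [hc, map_zero, zero_mul, sub_eq_zero] at hy
    rw [hy, map_one, sub_self]
    exact dvd_zero c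
  have hc' : (c : F) ≠ 0 := by
    intro h0
    exact hc (RingOfIntegers.ext (by rw [h0]; simp))
  set Ω := AlgebraicClosure F with hΩ
  have hN : algebraMap F Ω ((Algebra.intNorm (𝓞 F) (𝓞 F') z : 𝓞 F) : F) =
      ∏ σ : F' →ₐ[F] Ω, σ (z : F') := by
    have h1 : ((Algebra.intNorm (𝓞 F) (𝓞 F') z : 𝓞 F) : F) = Algebra.norm F (z : F') :=
      Algebra.algebraMap_intNorm (A := 𝓞 F) (K := F) (L := F') (B := 𝓞 F') z
    rw [h1]
    exact Algebra.norm_eq_prod_embeddings F Ω (z : F')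
  have hint : ∀ σ : F' →ₐ[F] Ω, IsIntegral ℤ (σ (y : F')) := fun σ =>
    (RingOfIntegers.isIntegral_coe y).map (σ : F' →+* Ω).toIntAlgHom
  have hcint : IsIntegral ℤ (algebraMap F Ω (c : F)) :=
    (RingOfIntegers.isIntegral_coe c).map (algebraMap F Ω).toIntAlgHom
  have hz : ∀ σ : F' →ₐ[F] Ω, σ (z : F') = 1 + algebraMap F Ω (c : F) * σ (y : F') := by
    intro σ
    have h1 : (z : F') = 1 + algebraMap F F' (c : F) * (y : F') := by
      have h2 := congrArg (algebraMap (𝓞 F') F') hy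
      rw [map_sub, map_mul, map_one] at h2
      have h3 : algebraMap (𝓞 F') F' (algebraMap (𝓞 F) (𝓞 F') c) = algebraMap F F' (c : F) := rfl
      rw [h3] at h2
      linear_combination h2
    rw [h1, map_add, map_mul, map_one, AlgHom.commutes]
  have key : ∀ S : Finset (F' →ₐ[F] Ω), ∃ e : Ω, IsIntegral ℤ e ∧
      ∏ σ ∈ S, σ (z : F') = 1 + algebraMap F Ω (c : F) * e := by
    intro S
    induction S using Finset.induction_on with
    | empty => exact ⟨0, isIntegral_zero, by simp⟩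
    | insert σ S hσ ih =>
      obtain ⟨e, he, h1⟩ := ih
      refine ⟨σ (y : F') + e + algebraMap F Ω (c : F) * σ (y : F') * e,
        ((hint σ).add he).add (((hcint.mul (hint σ))).mul he), ?_⟩
      rw [Finset.prod_insert hσ, h1, hz σ]
      ring
  obtain ⟨e, he, h1⟩ := key Finset.univ
  rw [← hN] at h1
  have h2 : e = algebraMap F Ω ((((Algebra.intNorm (𝓞 F) (𝓞 F') z : 𝓞 F) : F) - 1) / (c : F)) := by
    have hc'' : algebraMap F Ω (c : F) ≠ 0 := (map_ne_zero _).mpr hc'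
    rw [map_div₀, map_sub, map_one, h1, add_sub_cancel_left, mul_div_cancel_left₀ _ hc'']
  have h3 : IsIntegral ℤ ((((Algebra.intNorm (𝓞 F) (𝓞 F') z : 𝓞 F) : F) - 1) / (c : F)) := by
    rw [h2] at he
    exact (isIntegral_algHom_iff ((algebraMap F Ω).toIntAlgHom)
      (algebraMap F Ω).injective).mp he
  obtain ⟨w, hw⟩ := (IsIntegralClosure.isIntegral_iff (A := 𝓞 F)).mp h3
  refine ⟨w, ?_⟩
  apply FaithfulSMul.algebraMap_injective (𝓞 F) F
  rw [map_sub, map_mul, map_one, hw, mul_div_cancel₀ _ hc']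

end

section
variable {F F' : Type*} [Field F] [NumberField F] [Field F'] [NumberField F'] [Algebra F F']
  [Algebra K F] [Algebra K F'] [IsScalarTower K F F'] {f : 𝓞 K} {Ψ : Ideal (𝓞 F) → 𝓞 K}

theorem up_up (f : 𝓞 K) : algebraMap (𝓞 F) (𝓞 F') (up f F) = up f F' := by
  exact (IsScalarTower.algebraMap_apply (𝓞 K) (𝓞 F) (𝓞 F') f).symm

/-- the relative norm of an ideal prime to `f` -/
theorem relNorm_cop (f : 𝓞 K) (I : Ideal (𝓞 F')) (hI : IsCoprime I (Ideal.span {up f F'})) :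
    IsCoprime (Ideal.relNorm (𝓞 F) I) (Ideal.span {up f F}) := by
  obtain ⟨x, hx, y, hy, hxy⟩ := Ideal.isCoprime_iff_exists.mp hI
  rw [Ideal.mem_span_singleton] at hy
  obtain ⟨y', rfl⟩ := hy
  have h1 : up f F ∣ Algebra.intNorm (𝓞 F) (𝓞 F') x - 1 := by
    refine intNorm_congr (up f F) x ?_
    rw [up_up]
    exact ⟨-y', by linear_combination hxy⟩
  obtain ⟨w, hw⟩ := h1
  have hmem : Algebra.intNorm (𝓞 F) (𝓞 F') x ∈ Ideal.relNorm (𝓞 F) I := by
    rw [Ideal.relNorm_apply]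
    exact Ideal.subset_span ⟨x, hx, rfl⟩
  rw [Ideal.isCoprime_iff_exists]
  exact ⟨_, hmem, -(up f F) * w, by
    rw [Ideal.mem_span_singleton]
    exact ⟨-w, by ring⟩, by linear_combination hw⟩

/-- the relative norm of an ideal not prime to `f` -/
theorem relNorm_not_cop (f : 𝓞 K) (I : Ideal (𝓞 F'))
    (hI : ¬ IsCoprime I (Ideal.span {up f F'})) :
    ¬ IsCoprime (Ideal.relNorm (𝓞 F) I) (Ideal.span {up f F}) := by
  intro h
  rw [Ideal.isCoprime_iff_sup_eq] at hI
  obtain ⟨P, hP, hle⟩ := Ideal.exists_le_maximal _ hI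
  have h1 : Ideal.relNorm (𝓞 F) I ≤ P.under (𝓞 F) :=
    (Ideal.relNorm_le_comap (𝓞 F) I).trans (Ideal.comap_mono (le_sup_left.trans hle))
  have h2 : up f F ∈ P.under (𝓞 F) := by
    rw [Ideal.mem_comap, up_up]
    exact hle (Ideal.mem_sup_right (Ideal.mem_span_singleton_self _))
  have h3 := Ideal.isCoprime_iff_sup_eq.mp h
  have h4 : (P.under (𝓞 F)).IsPrime := inferInstance
  apply h4.ne_top
  rw [← top_le_iff, ← h3]
  exact sup_le h1 ((Ideal.span_singleton_le_iff_mem _).mpr h2)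

/-- the character over an extension -/
theorem HF.over (h : HF f F Ψ) : HF f F' (fun I => Ψ (Ideal.relNorm (𝓞 F) I)) := by
  refine ⟨h.ne, h.big, ?_, ?_, ?_, ?_, ?_⟩
  · rw [map_one, h.one]
  · intro I J
    rw [map_mul, h.mul]
  · intro I hI
    exact h.zero _ (relNorm_not_cop f I hI)
  · intro I hI
    rw [h.span _ (relNorm_cop f I hI), Ideal.relNorm_relNorm]
  · intro z hz
    rw [Ideal.relNorm_singleton, h.ray _ (intNorm_congr (up f F) z (by rw [up_up]; exact hz))]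
    rw [nK, nK]
    exact Algebra.intNorm_intNorm (𝓞 K) (𝓞 F) z

end

section
variable [HC] {F : Type*} [Field F] [NumberField F] [Algebra K F]

/-- the character of the curve -/
theorem HF.ofHC : HF HC.f F (psi F) := by
  refine ⟨AN.f_ne, HC.hd.big, psi_one F, psi_mul F, ?_, ?_, ?_⟩
  · intro I hI
    by_contra h0
    apply hI
    rw [Ideal.isCoprime_iff_sup_eq]
    by_contra hne
    obtain ⟨P, hP, hle⟩ := Ideal.exists_le_maximal _ hne
    have hP0 : P ≠ ⊥ := by
      rintro rfl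
      have h1 : up HC.f F ∈ (⊥ : Ideal (𝓞 F)) :=
        hle (Ideal.mem_sup_right (Ideal.mem_span_singleton_self _))
      rw [Ideal.mem_bot] at h1
      exact AN.f_ne ((FaithfulSMul.algebraMap_injective (𝓞 K) (𝓞 F)) (by rw [map_zero]; exact h1))
    obtain ⟨J, hJ⟩ : P ∣ I := Ideal.dvd_iff_le.mpr (le_sup_left.trans hle)
    apply h0
    have h2 : psi F P = 0 := AN.psi_place_bad (⟨P, hP.isPrime, hP0⟩ : HeightOneSpectrum (𝓞 F))
      (hle (Ideal.mem_sup_right (Ideal.mem_span_singleton_self _)))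
    rw [hJ, psi_mul, h2, zero_mul]
  · intro I hI
    exact (AN.psi_spec I hI).2
  · intro z hz
    rw [psi, relNorm_span]
    have h1 := nK_congr (F := F) HC.f z 1 hz
    rw [nK_one] at h1
    exact HC.hd.ray _ h1

end

end Pool.Agent.Lib.MP_1a91b9_nuY
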