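import Pool.Agent.Lib.MP_1a91b9_nuY.AN.Fam
import Pool.Agent.Lib.MP_1a91b9_nuY.AN.Val
import Pool.Agent.Lib.MP_1a91b9_nuY.ZD.Defs
import Pool.Agent.Lib.MP_1a91b9_nuX.AN.Alg

/-!
# Twisted base: the normalised value is a unit above almost all primes
-/

set_option autoImplicit false

namespace Pool.Agent.Lib.MP_1a91b9_nuY

variable [Pool.Agent.Lib.MP_1a91b9_nuT.CD]

open Pool.Agent.Lib.MP_1a91b9_nuT hiding cj
open NumberField IsDedekindDomain Module Pool.Agent.Lib.MP_1a91b9_nt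
  Pool.Agent.Lib.MP_1a91b9_nuT.S4 Pool.Agent.Lib.MP_1a91b9_nuG Pool.Agent.Lib.MP_1a91b9_nuX
  Pool.Agent.Lib.MP_1a91b9_nuW
open Pool.Agent.Lib.MP_1a91b9_nuX.AN (algebraic_of_val unit_almost_alg)

universe u

section
variable {F : Type u} [Field F] [NumberField F] [Algebra K F] {f : 𝓞 K}
  {Ψ : Ideal (𝓞 F) → 𝓞 K}

/-- The normalised value at `1` is algebraic. -/
theorem value_alg (hf : HF f F Ψ) :
    ∃ L : ℂ → ℂ, Differentiable ℂ L ∧ (∀ s : ℂ, 2 < s.re → L s = Lf (pB Ψ) s) ∧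
      IsAlgebraic ℤ (L 1 / Om ^ finrank K F) := by
  have h30 : Ideal.span {up f F} ≠ 0 := hf.up_ne
  obtain ⟨q, hq, hfq, hm2, hV⟩ := exists_valueProp hf.ne hf.big F (Ideal.span {up f F}) h30
  obtain ⟨ι, hι, J, G, hG, -, hGW, h⟩ := exists_family hf hq.ne_zero hV (Ideal.span {up f F}) h30
    hf.up_ne_top le_rfl hm2
  refine ⟨fun s => ∑ i, indC (Ideal.span {up f F}) (J i) * G i s, ?_, ?_, ?_⟩
  · exact Differentiable.fun_sum fun i _ => (differentiable_const _).mul (hG i)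
  · intro s hs
    change ∑ i, indC (Ideal.span {up f F}) (J i) * G i s = _
    rw [← h (indC _) (fun I hI => indC_of_not hI) (norm_indC_le _) (indC_ray _) s hs]
    have hfin : {v : HeightOneSpectrum (𝓞 F) | Ideal.span {up f F} ≤ v.asIdeal}.Finite := by
      refine (Ideal.finite_factors h30).subset fun v hv => ?_
      exact Ideal.dvd_iff_le.mpr hv
    rw [Lf_indC hf _ hfin.toFinset (fun v => by rw [Set.Finite.mem_toFinset]; rfl) s hs]
    have e : ∏ v ∈ hfin.toFinset, (1 - pB Ψ v.asIdeal *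
        (Ideal.absNorm v.asIdeal : ℂ) ^ (-s)) = 1 := by
      refine Finset.prod_eq_one fun v hv => ?_
      rw [Set.Finite.mem_toFinset] at hv
      have hv' : Ideal.span {up f F} ≤ v.asIdeal := hv
      rw [Ideal.span_singleton_le_iff_mem] at hv'
      rw [pB_bad hf v hv', zero_mul, sub_zero]
    rw [e, mul_one]
  · refine algebraic_of_val hq fun W hW => ?_
    change (∑ i, indC (Ideal.span {up f F}) (J i) * G i 1) / Om ^ finrank K F ∈ W
    rw [Finset.sum_div]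
    refine sum_mem fun i _ => ?_
    rw [mul_div_assoc]
    refine mul_mem ?_ ((ValuationSubring.valuation_le_one_iff _ _).1 (hGW i W hW))
    rw [indC]
    split_ifs
    · exact one_mem _
    · exact zero_mem _

/-- The unit property for almost all `ℓ`. -/
theorem unit_almost (hf : HF f F Ψ) (h : LGoodY F Ψ) :
    ∃ D : ℕ, D ≠ 0 ∧ ∀ ℓ : ℕ, ℓ.Prime → ¬ ℓ ∣ D → UnitT ℓ F Ψ := by
  obtain ⟨g, hg, hg2, hg1⟩ := h
  obtain ⟨L, hL, hL1, hLa⟩ := value_alg hf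
  have e1 : g = L := entire_eq hg hL fun s hs => by rw [hg2 s hs, hL1 s hs]
  subst e1
  have hne : g 1 / Om ^ finrank K F ≠ 0 := div_ne_zero hg1 (pow_ne_zero _ Om_ne)
  obtain ⟨D, hD, h⟩ := unit_almost_alg hne hLa
  exact ⟨D, hD, fun ℓ hℓ hd => ⟨g, hg, hg2, fun W hW => h ℓ hℓ hd W hW⟩⟩

/-- The normalised unit property for almost all `ℓ`. -/
theorem unitZY_almost (hf : HF f F Ψ) (h : LGoodY F Ψ) :
    ∃ D : ℕ, D ≠ 0 ∧ ∀ ℓ : ℕ, ℓ.Prime → ¬ ℓ ∣ D → UnitZY ℓ F Ψ := by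
  obtain ⟨D, hD, h1⟩ := unit_almost hf h
  obtain ⟨d, hd⟩ := Pool.Agent.Lib.MP_1a91b9_nuW.ZD.exists_dg F
  have hN : Ideal.absNorm (Ideal.span {d}) ≠ 0 := by
    rw [Ne, Ideal.absNorm_eq_zero_iff, Ideal.span_singleton_eq_bot]
    exact hd.ne
  refine ⟨D * Ideal.absNorm (Ideal.span {d}), mul_ne_zero hD hN, fun ℓ hℓ hnd => ?_⟩
  obtain ⟨L, hL, hL1, hv⟩ := h1 ℓ hℓ fun h => hnd (h.mul_right _)
  refine ⟨L, hL, hL1, fun A hA d' hd' => ?_⟩
  have hc : (Ideal.absNorm (Ideal.span {d})).Coprime ℓ :=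
    Nat.Coprime.symm ((Nat.Prime.coprime_iff_not_dvd hℓ).2 fun h3 => hnd (h3.mul_left _))
  have hc' : IsCoprime d' (ℓ : 𝓞 K) := by
    have h2 : IsCoprime ((Ideal.absNorm (Ideal.span {d}) : ℕ) : 𝓞 K) (ℓ : 𝓞 K) :=
      Nat.Coprime.cast hc
    refine h2.of_isCoprime_of_dvd_left ?_
    rw [← Ideal.mem_span_singleton]
    have e : Ideal.span {d'} = Ideal.span {d} := by
      rw [← hd', hd]
    rw [e]
    exact Ideal.absNorm_mem _
  rw [hv A hA, Pool.Agent.Lib.MP_1a91b9_nuW.ZD.val_of_cop hA hc', one_pow, one_mul]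

end

end Pool.Agent.Lib.MP_1a91b9_nuY
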