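import Pool.Agent.Lib.MP_1a91b9_nuW.Defs

/-!
# Twisted base: Hecke characters of `F` of the type of the curve

`HF f F Ψ`: the function `Ψ` on the ideals of `𝓞 F` is an algebraic Hecke character with values in `𝓞 K`,
`Ψ I` generates the relative norm of `I`, with modulus `f : 𝓞 K` and zero on the ideals which are not prime to `f`.
-/

set_option autoImplicit false

namespace Pool.Agent.Lib.MP_1a91b9_nuY

variable [Pool.Agent.Lib.MP_1a91b9_nuT.CD]

open Pool.Agent.Lib.MP_1a91b9_nuT hiding cj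
open NumberField IsDedekindDomain Module Pool.Agent.Lib.MP_1a91b9_nt
  Pool.Agent.Lib.MP_1a91b9_nuT.S4 Pool.Agent.Lib.MP_1a91b9_nuG Pool.Agent.Lib.MP_1a91b9_nuX
  Pool.Agent.Lib.MP_1a91b9_nuW

universe u

/-- a Hecke character of `F` of the type of the curve, with modulus `f` -/
structure HF (f : 𝓞 K) (F : Type*) [Field F] [NumberField F] [Algebra K F]
    (Ψ : Ideal (𝓞 F) → 𝓞 K) : Prop where
  ne : f ≠ 0
  /-- `f` is divisible by a natural number at least three -/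
  big : ∃ r : ℕ, 3 ≤ r ∧ (r : 𝓞 K) ∣ f
  one : Ψ 1 = 1
  mul : ∀ I J : Ideal (𝓞 F), Ψ (I * J) = Ψ I * Ψ J
  zero : ∀ I : Ideal (𝓞 F), ¬ IsCoprime I (Ideal.span {up f F}) → Ψ I = 0
  span : ∀ I : Ideal (𝓞 F), IsCoprime I (Ideal.span {up f F}) →
    Ideal.span {Ψ I} = Ideal.relNorm (𝓞 K) I
  ray : ∀ z : 𝓞 F, up f F ∣ z - 1 → Ψ (Ideal.span {z}) = nK z

section
variable {F : Type*} [Field F] [NumberField F]

/-- the complex value of the character -/
noncomputable def pC (Ψ : Ideal (𝓞 F) → 𝓞 K) (I : Ideal (𝓞 F)) : ℂ := embK (Ψ I : K)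

/-- the complex value of the conjugate character -/
noncomputable def pB (Ψ : Ideal (𝓞 F) → 𝓞 K) (I : Ideal (𝓞 F)) : ℂ :=
  (starRingEnd ℂ) (pC Ψ I)

end

section
variable {F : Type*} [Field F] [NumberField F] [Algebra K F] {f : 𝓞 K}
  {Ψ : Ideal (𝓞 F) → 𝓞 K}

theorem HF.not_isUnit (h : HF f F Ψ) : ¬ IsUnit f := by
  obtain ⟨r, hr, hd⟩ := h.big
  exact fun hu => nat_not_isUnit hr (isUnit_of_dvd_unit hd hu)

theorem HF.up_ne_top (h : HF f F Ψ) : Ideal.span {up f F} ≠ 1 := by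
  intro h0
  rw [Ideal.one_eq_top, Ideal.span_singleton_eq_top] at h0
  have h1 := h0.map (Algebra.norm (𝓞 K) : 𝓞 F →* 𝓞 K)
  rw [Algebra.norm_algebraMap] at h1
  have h2 : Module.finrank (𝓞 K) (𝓞 F) ≠ 0 := Module.finrank_pos.ne'
  exact h.not_isUnit (isUnit_pow_iff h2 |>.mp h1)

theorem HF.up_ne (h : HF f F Ψ) : Ideal.span {up f F} ≠ 0 := by
  rw [Ne, Ideal.zero_eq_bot, Ideal.span_singleton_eq_bot]
  intro h0
  exact h.ne ((FaithfulSMul.algebraMap_injective (𝓞 K) (𝓞 F)) (by rw [map_zero]; exact h0))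

theorem HF.pzero (h : HF f F Ψ) : Ψ 0 = 0 := by
  refine h.zero 0 fun h0 => h.up_ne_top ?_
  rw [Ideal.isCoprime_iff_sup_eq, Ideal.zero_eq_bot, bot_sup_eq] at h0
  rw [h0, Ideal.one_eq_top]

theorem HF.pow (h : HF f F Ψ) (I : Ideal (𝓞 F)) (n : ℕ) : Ψ (I ^ n) = Ψ I ^ n := by
  induction n with
  | zero => rw [pow_zero, pow_zero, h.one]
  | succ n ih => rw [pow_succ, pow_succ, h.mul, ih]

theorem pC_one (h : HF f F Ψ) : pC Ψ 1 = 1 := by rw [pC, h.one]; simp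

theorem pC_mul (h : HF f F Ψ) (I J : Ideal (𝓞 F)) : pC Ψ (I * J) = pC Ψ I * pC Ψ J := by
  rw [pC, h.mul]
  simp [pC]

theorem pC_zero (h : HF f F Ψ) : pC Ψ 0 = 0 := by rw [pC, h.pzero]; simp

theorem pB_one (h : HF f F Ψ) : pB Ψ 1 = 1 := by rw [pB, pC_one h, map_one]

theorem pB_mul (h : HF f F Ψ) (I J : Ideal (𝓞 F)) : pB Ψ (I * J) = pB Ψ I * pB Ψ J := by
  rw [pB, pC_mul h, map_mul]; rfl

theorem pB_zero (h : HF f F Ψ) : pB Ψ 0 = 0 := by rw [pB, pC_zero h, map_zero]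

/-- the character at a place above `f` -/
theorem HF.place_bad (h : HF f F Ψ) (w : HeightOneSpectrum (𝓞 F)) (h3 : up f F ∈ w.asIdeal) :
    Ψ w.asIdeal = 0 := by
  refine h.zero _ fun h0 => ?_
  have hsup := Ideal.isCoprime_iff_sup_eq.mp h0
  apply w.isPrime.ne_top
  rw [← top_le_iff, ← hsup]
  exact sup_le le_rfl ((Ideal.span_singleton_le_iff_mem _).mpr h3)

theorem pB_bad (h : HF f F Ψ) (v : HeightOneSpectrum (𝓞 F)) (h3 : up f F ∈ v.asIdeal) :
    pB Ψ v.asIdeal = 0 := by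
  rw [pB, pC, h.place_bad v h3]
  simp

omit [Algebra K F] in
theorem isIntegral_pC (Ψ : Ideal (𝓞 F) → 𝓞 K) (I : Ideal (𝓞 F)) : IsIntegral ℤ (pC Ψ I) := by
  have h : IsIntegral ℤ ((Ψ I : 𝓞 K) : K) := RingOfIntegers.isIntegral_coe _
  exact h.map embK.toRingHom.toIntAlgHom

theorem pC_mul_pB (h : HF f F Ψ) (I : Ideal (𝓞 F)) (hI : IsCoprime I (Ideal.span {up f F})) :
    pC Ψ I * pB Ψ I = (Ideal.absNorm I : ℂ) := by
  have h1 := h.span I hI
  have h2 : Ideal.absNorm (Ideal.relNorm (𝓞 K) I) = Ideal.absNorm I := by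
    exact Ideal.absNorm_relNorm (𝓞 K) (𝓞 F) I
  rw [pB, Complex.mul_conj, Complex.normSq_eq_norm_sq, pC, ← h2, ← h1]
  have h3 : (Ideal.absNorm (Ideal.span {Ψ I}) : ℝ) =
      ‖embK ((Ψ I : 𝓞 K) : K)‖ ^ 2 := by
    rw [← norm_K, Ideal.absNorm_span_singleton]
    have h : ((Algebra.norm ℤ (Ψ I) : ℤ) : ℚ) = Algebra.norm ℚ ((Ψ I : 𝓞 K) : K) :=
      Algebra.coe_norm_int _
    rw [← h, Nat.cast_natAbs]
    push_cast
    rfl
  rw [← h3]
  norm_cast

/-- the absolute value of the character -/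
theorem norm_pC_le (h : HF f F Ψ) (I : Ideal (𝓞 F)) :
    ‖pC Ψ I‖ ≤ (Ideal.absNorm I : ℝ) ^ (1 / 2 : ℝ) := by
  by_cases hI : IsCoprime I (Ideal.span {up f F})
  · have h := pC_mul_pB h I hI
    rw [pB, Complex.mul_conj, Complex.normSq_eq_norm_sq] at h
    have h' : ‖pC Ψ I‖ ^ 2 = (Ideal.absNorm I : ℝ) := by exact_mod_cast h
    rw [← h', ← Real.sqrt_eq_rpow, Real.sqrt_sq (norm_nonneg _)]
  · rw [pC, h.zero _ hI]
    simp only [map_zero, norm_zero]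
    positivity

theorem norm_pB_le (h : HF f F Ψ) (I : Ideal (𝓞 F)) :
    ‖pB Ψ I‖ ≤ (Ideal.absNorm I : ℝ) ^ (1 / 2 : ℝ) := by
  rw [pB, RCLike.norm_conj]
  exact norm_pC_le h I

/-- the character of principal ideals in a class modulo `f` -/
theorem HF.psi_span (h : HF f F Ψ) (t : 𝓞 F)
    (ht : IsCoprime (Ideal.span {t}) (Ideal.span {up f F})) :
    ∃ ε : (𝓞 K)ˣ, ∀ r : 𝓞 F, up f F ∣ r - t → Ψ (Ideal.span {r}) = ε * nK r := by
  rw [Ideal.isCoprime_span_singleton_iff] at ht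
  obtain ⟨y, z, hyz⟩ := ht
  have hy0 : y ≠ 0 := by
    rintro rfl
    rw [zero_mul, zero_add] at hyz
    apply h.up_ne_top
    rw [Ideal.one_eq_top, Ideal.span_singleton_eq_top]
    exact IsUnit.of_mul_eq_one z (by rw [mul_comm]; exact hyz)
  have hyc : IsCoprime (Ideal.span {y}) (Ideal.span {up f F}) := by
    rw [Ideal.isCoprime_span_singleton_iff]
    exact ⟨t, z, by linear_combination hyz⟩
  have hs := h.span _ hyc
  rw [relNorm_span] at hs
  obtain ⟨u, hu⟩ := Ideal.span_singleton_eq_span_singleton.1 hs.symm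
  have hny : nK y ≠ 0 := by
    intro h0
    have h1 : ((nK y : 𝓞 K) : K) = 0 := by rw [h0]; simp
    rw [nK_coe, Algebra.norm_eq_zero_iff] at h1
    exact hy0 (RingOfIntegers.ext (by rw [h1]; simp))
  refine ⟨u⁻¹, fun r hr => ?_⟩
  have h1 : up f F ∣ r * y - 1 := by
    obtain ⟨d, hd⟩ := hr
    exact ⟨d * y - z, by linear_combination y * hd + hyz⟩
  have h2 := h.ray _ h1
  have h3 : Ψ (Ideal.span {r}) * Ψ (Ideal.span {y}) = nK r * nK y := by
    rw [← h.mul, Ideal.span_singleton_mul_span_singleton, ← nK_mul]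
    exact h2
  rw [← hu] at h3
  have h4 : Ψ (Ideal.span {r}) * u = nK r := by
    refine mul_right_cancel₀ hny ?_
    linear_combination h3
  calc Ψ (Ideal.span {r}) = Ψ (Ideal.span {r}) * u * ((u⁻¹ : (𝓞 K)ˣ) : 𝓞 K) := by
        rw [mul_assoc, Units.mul_inv, mul_one]
    _ = ((u⁻¹ : (𝓞 K)ˣ) : 𝓞 K) * nK r := by rw [h4, mul_comm]

end

/-- The normalised unit property above `p` of the L-function of the character. -/
def UnitY (p : 𝓞 K) (F : Type u) [Field F] [NumberField F] [Algebra K F]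
    (Ψ : Ideal (𝓞 F) → 𝓞 K) : Prop :=
  ∃ L : ℂ → ℂ, Differentiable ℂ L ∧ (∀ s : ℂ, 2 < s.re → L s = Lf (pB Ψ) s) ∧
    ∀ A : ValuationSubring ℂ, PlP p A → ∀ d : 𝓞 K,
      Ideal.relNorm (𝓞 K) (differentIdeal (𝓞 K) (𝓞 F)) = Ideal.span {d} →
        A.valuation (L 1 / Om ^ finrank K F) ^ 2 * A.valuation (embK (d : K)) = 1

/-- The L-series of the character continues and its normalised value at `1` is a unit above `q`. -/
def UnitT (q : ℕ) (F : Type u) [Field F] [NumberField F] [Algebra K F]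
    (Ψ : Ideal (𝓞 F) → 𝓞 K) : Prop :=
  ∃ L : ℂ → ℂ, Differentiable ℂ L ∧ (∀ s : ℂ, 2 < s.re → L s = Lf (pB Ψ) s) ∧
    ∀ W : ValuationSubring ℂ, (q : ℂ)⁻¹ ∉ W → W.valuation (L 1 / Om ^ (finrank K F)) = 1

end Pool.Agent.Lib.MP_1a91b9_nuY
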