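import Pool.Agent.Lib.MP_1a91b9_nuY.AN.Unf
import Pool.Agent.Lib.MP_1a91b9_nuG.Family

/-!
# Twisted base: the interface with the values, the continuation of the L-series
-/

set_option autoImplicit false

namespace Pool.Agent.Lib.MP_1a91b9_nuY

variable [Pool.Agent.Lib.MP_1a91b9_nuT.CD]

open Pool.Agent.Lib.MP_1a91b9_nuT hiding cj
open NumberField IsDedekindDomain Module Pool.Agent.Lib.MP_1a91b9_nt
  Pool.Agent.Lib.MP_1a91b9_nuT.S4 Pool.Agent.Lib.MP_1a91b9_nuG Pool.Agent.Lib.MP_1a91b9_nuX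
  Pool.Agent.Lib.MP_1a91b9_nuW Pool.Agent.Lib.MP_1a91b9_nuW.WN

universe u

section
variable {F : Type u} [Field F] [NumberField F] [Algebra K F]

/-- a multiple of the conductor -/
theorem value_mono {f₀ f : 𝓞 K} (h : f₀ ∣ f) {q : ℕ} {Ω : ℂ} (hV : ValueProp f₀ q Ω F) :
    ValueProp f q Ω F := by
  intro m b t hm0 hm
  refine hV m b t hm0 (hm.trans ?_)
  rw [Ideal.span_singleton_le_span_singleton]
  obtain ⟨d, rfl⟩ := h
  exact ⟨algebraMap (𝓞 K) (𝓞 F) d, by rw [up, up, map_mul]⟩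

end

section
variable {F : Type u} [Field F] [NumberField F] [Algebra K F] {f : 𝓞 K}
  {Ψ : Ideal (𝓞 F) → 𝓞 K} {q : ℕ}

theorem exists_family (hf : HF f F Ψ) (hq0 : q ≠ 0) {Ω : ℂ} (hV : ValueProp f q Ω F) (m : Ideal (𝓞 F))
    (hm0 : m ≠ 0) (hm1 : m ≠ 1)
    (h3 : m ≤ Ideal.span {up f F}) (h2 : IsCoprime m (Ideal.span {(q : 𝓞 F)})) :
    ∃ (ι : Type u) (_ : Fintype ι) (J : ι → Ideal (𝓞 F)) (G : ι → ℂ → ℂ),
      (∀ i, Differentiable ℂ (G i)) ∧ (∀ i, IsCoprime (J i) m) ∧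
      (∀ i, ∀ W : ValuationSubring ℂ, (q : ℂ)⁻¹ ∉ W →
        W.valuation (G i 1 / Ω ^ (Module.finrank K F)) ≤ 1) ∧
      ∀ X : Ideal (𝓞 F) → ℂ, (∀ I, ¬ IsCoprime I m → X I = 0) → (∀ I, ‖X I‖ ≤ 1) →
        (∀ I J, RayEq m I J → X I = X J) → ∀ s : ℂ, 2 < s.re →
        Lf (fun I => pB Ψ I * X I) s = ∑ i, X (J i) * G i s := by
  have hc0 : Ideal.span {(q : 𝓞 F)} ≠ 0 := by
    rw [Ne, Ideal.zero_eq_bot, Ideal.span_singleton_eq_bot]
    exact_mod_cast hq0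
  obtain ⟨ι, hι, b, t, J, k, h1, h4⟩ := unfold_L hf (Ideal.span {(q : 𝓞 F)}) m hc0 hm0 hm1 h3
  choose A hA using fun i => hV m (b i) (t i) hm0 h3 h2 (h1 i).1 (h1 i).2.1 (h1 i).2.2.1
    (h1 i).2.2.2.1 (h1 i).2.2.2.2.1
  have hNb : ∀ i, (Ideal.absNorm (b i) : ℂ) ≠ 0 := by
    intro i
    have := Ideal.absNorm_ne_zero_iff_mem_nonZeroDivisors.mpr
      (mem_nonZeroDivisors_iff_ne_zero.mpr (h1 i).1)
    exact_mod_cast this
  refine ⟨ι, hι, J, fun i s => k i * (Ideal.absNorm (b i) : ℂ) ^ s * A i s, ?_, ?_, ?_, ?_⟩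
  · intro i
    refine Differentiable.mul ?_ (hA i).1
    refine Differentiable.mul (differentiable_const _) ?_
    exact (differentiable_id).const_cpow (Or.inl (hNb i))
  · intro i
    exact (h1 i).2.2.2.2.2.1
  · intro i W hW
    have e : k i * (Ideal.absNorm (b i) : ℂ) ^ (1 : ℂ) * A i 1 / Ω ^ (Module.finrank K F) =
        (k i * (Ideal.absNorm (b i) : ℂ)) * (A i 1 / Ω ^ (Module.finrank K F)) := by
      rw [Complex.cpow_one]; ring
    change W.valuation (k i * (Ideal.absNorm (b i) : ℂ) ^ (1 : ℂ) * A i 1 /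
      Ω ^ (Module.finrank K F)) ≤ 1
    rw [e, map_mul]
    exact mul_le_one' (val_integral W (h1 i).2.2.2.2.2.2) ((hA i).2.2 W hW)
  · intro X hX0 hX1 hXr s hs
    rw [h4 A (fun i R hR s hs => (hA i).2.1 R hR s hs) X hX0 hX1 hXr s hs]
    exact Finset.sum_congr rfl fun i _ => by ring

theorem exists_cont (hf : HF f F Ψ) (hq0 : q ≠ 0) (hfq : IsCoprime f (q : 𝓞 K)) {Ω : ℂ}
    (hV : ValueProp f q Ω F) : ∃ L : ℂ → ℂ, Differentiable ℂ L ∧
    ∀ s : ℂ, 2 < s.re → L s = Lf (pB Ψ) s := by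
  have h30 : Ideal.span {up f F} ≠ 0 := hf.up_ne
  have h32 : IsCoprime (Ideal.span {up f F}) (Ideal.span {(q : 𝓞 F)}) := by
    rw [Ideal.isCoprime_span_singleton_iff]
    have h := hfq.map (algebraMap (𝓞 K) (𝓞 F))
    rwa [map_natCast] at h
  obtain ⟨ι, hι, J, G, hG, -, -, h⟩ := exists_family hf hq0 hV (Ideal.span {up f F}) h30
    hf.up_ne_top le_rfl h32
  refine ⟨fun s => ∑ i, indC (Ideal.span {up f F}) (J i) * G i s, ?_, ?_⟩
  · exact Differentiable.fun_sum fun i _ => (differentiable_const _).mul (hG i)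
  · intro s hs
    change ∑ i, indC (Ideal.span {up f F}) (J i) * G i s = _
    rw [← h (indC _) (fun I hI => indC_of_not hI) (norm_indC_le _) (indC_ray _) s hs]
    have hfin : {v : HeightOneSpectrum (𝓞 F) | Ideal.span {up f F} ≤ v.asIdeal}.Finite := by
      refine (Ideal.finite_factors h30).subset fun v hv => ?_
      exact Ideal.dvd_iff_le.mpr hv
    rw [Lf_indC hf _ hfin.toFinset (fun v => by rw [Set.Finite.mem_toFinset]; rfl) s hs]
    have e : ∏ v ∈ hfin.toFinset, (1 - pB Ψ v.asIdeal *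
        (Ideal.absNorm v.asIdeal : ℂ) ^ (-s)) = 1 := by
      refine Finset.prod_eq_one fun v hv => ?_
      rw [Set.Finite.mem_toFinset] at hv
      have hv' : Ideal.span {up f F} ≤ v.asIdeal := hv
      rw [Ideal.span_singleton_le_iff_mem] at hv'
      rw [pB_bad hf v hv', zero_mul, sub_zero]
    rw [e, mul_one]

end

end Pool.Agent.Lib.MP_1a91b9_nuY
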