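import Pool.Agent.Lib.MP_1a91b9_nuY.AN.Unf
import Pool.Agent.Lib.MP_1a91b9_nuW.WN.RamW

/-!
# Twisted base: the L-series of the Ramanujan weight
-/

set_option autoImplicit false

namespace Pool.Agent.Lib.MP_1a91b9_nuY

variable [Pool.Agent.Lib.MP_1a91b9_nuT.CD]

open Pool.Agent.Lib.MP_1a91b9_nuT hiding cj
open NumberField IsDedekindDomain Module Pool.Agent.Lib.MP_1a91b9_nt
  Pool.Agent.Lib.MP_1a91b9_nuT.S4 Pool.Agent.Lib.MP_1a91b9_nuG Pool.Agent.Lib.MP_1a91b9_nuX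
  Pool.Agent.Lib.MP_1a91b9_nuW Pool.Agent.Lib.MP_1a91b9_nuW.WN

universe u

section
variable {F : Type u} [Field F] [NumberField F]

open Classical in
theorem Lf_dvd (X : Ideal (𝓞 F) → ℂ) (hX : ∀ I J, X (I * J) = X I * X J) (D : Ideal (𝓞 F))
    (hD : D ≠ 0) (s : ℂ) (hs : 2 < s.re) :
    Lf (fun I => X I * (if D ∣ I then 1 else 0)) s =
      X D * (Ideal.absNorm D : ℂ) ^ (-s) * Lf X s := by
  have hinj : Function.Injective (fun I : Ideal (𝓞 F) => D * I) :=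
    fun I J h => mul_left_cancel₀ hD h
  set g : Ideal (𝓞 F) → ℂ := fun I =>
    X I * (if D ∣ I then 1 else 0) * (Ideal.absNorm I : ℂ) ^ (-s) with hg
  have hsupp : Function.support g ⊆ Set.range (fun I : Ideal (𝓞 F) => D * I) := by
    intro I hI
    by_cases h : D ∣ I
    · obtain ⟨J, rfl⟩ := h
      exact ⟨J, rfl⟩
    · exfalso
      apply hI
      simp only [hg, if_neg h, mul_zero, zero_mul]
  have h1 : Lf (fun I => X I * (if D ∣ I then 1 else 0)) s = ∑' I, g (D * I) :=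
    (hinj.tsum_eq hsupp).symm
  rw [h1, Lf, ← tsum_mul_left]
  refine tsum_congr fun I => ?_
  simp only [hg]
  rw [if_pos (dvd_mul_right D I), hX, map_mul, Nat.cast_mul, Complex.natCast_mul_natCast_cpow]
  ring

/-- the Euler factors of the Ramanujan weight -/
noncomputable def ER (Ψ : Ideal (𝓞 F) → 𝓞 K) (S B : Finset (HeightOneSpectrum (𝓞 F))) (C₂ : Ideal (𝓞 F)) (s : ℂ) : ℂ :=
  pB Ψ C₂ * (Ideal.absNorm C₂ : ℂ) ^ (1 - s) *
    (∏ v ∈ S, (pB Ψ v.asIdeal * (Ideal.absNorm v.asIdeal : ℂ) ^ (1 - s) - 1)) *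
    ∏ v ∈ B, (1 - pB Ψ v.asIdeal * (Ideal.absNorm v.asIdeal : ℂ) ^ (-s))

theorem ER_diff (Ψ : Ideal (𝓞 F) → 𝓞 K) (S B : Finset (HeightOneSpectrum (𝓞 F))) (C₂ : Ideal (𝓞 F)) (hC₂ : C₂ ≠ 0) :
    Differentiable ℂ (ER Ψ S B C₂) := by
  have hN : ∀ I : Ideal (𝓞 F), I ≠ 0 → (Ideal.absNorm I : ℂ) ≠ 0 := by
    intro I hI
    have := Ideal.absNorm_ne_zero_iff_mem_nonZeroDivisors.mpr
      (mem_nonZeroDivisors_iff_ne_zero.mpr hI)
    exact_mod_cast this
  have h1 : ∀ I : Ideal (𝓞 F), I ≠ 0 →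
      Differentiable ℂ (fun s : ℂ => (Ideal.absNorm I : ℂ) ^ (1 - s)) := fun I hI =>
    (differentiable_id.const_sub 1).const_cpow (Or.inl (hN I hI))
  have h2 : ∀ I : Ideal (𝓞 F), I ≠ 0 →
      Differentiable ℂ (fun s : ℂ => (Ideal.absNorm I : ℂ) ^ (-s)) := fun I hI =>
    differentiable_id.neg.const_cpow (Or.inl (hN I hI))
  unfold ER
  refine Differentiable.mul (Differentiable.mul ((h1 C₂ hC₂).const_mul _) ?_) ?_
  · exact Differentiable.fun_finsetProd fun v _ =>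
      ((h1 v.asIdeal v.ne_bot).const_mul _).sub_const 1
  · exact Differentiable.fun_finsetProd fun v _ =>
      ((h2 v.asIdeal v.ne_bot).const_mul _).const_sub 1

variable {f : 𝓞 K} {Ψ : Ideal (𝓞 F) → 𝓞 K} [Algebra K F]

theorem Lf_ram (hf : HF f F Ψ) (M : Ideal (𝓞 F)) (S B : Finset (HeightOneSpectrum (𝓞 F))) (C₂ : Ideal (𝓞 F))
    (hC₂ : C₂ ≠ 0) (hS : ∀ v ∈ S, ¬ M ≤ v.asIdeal) (hM : IsCoprime C₂ M)
    (hB : ∀ v, v ∈ B ↔ M ≤ v.asIdeal) (s : ℂ) (hs : 2 < s.re) :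
    Lf (fun I => pB Ψ I * (indC M I * ramW S C₂ I)) s =
      Lf (pB Ψ) s * ER Ψ S B C₂ s := by
  classical
  have hs0 : s.re ≠ 0 := by
    intro h
    rw [h] at hs
    linarith
  obtain ⟨X, hX⟩ : ∃ X : Ideal (𝓞 F) → ℂ, X = fun I => pB Ψ I * indC M I := ⟨_, rfl⟩
  have hXI : ∀ I, X I = pB Ψ I * indC M I := fun I => by rw [hX]
  have hXm : ∀ I J, X (I * J) = X I * X J := by
    intro I J
    rw [hXI, hXI, hXI, pB_mul hf, indC_mul]
    ring
  have hE : ∀ T ∈ S.powerset, IsCoprime (dT T * C₂) M := by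
    intro T hT
    refine IsCoprime.mul_left (IsCoprime.prod_left fun v hv => ?_) hM
    by_contra h
    exact hS v (Finset.mem_powerset.1 hT hv) ((le_iff_not_coprime M v).2 h)
  have hE0 : ∀ T : Finset (HeightOneSpectrum (𝓞 F)), dT T * C₂ ≠ 0 := fun T =>
    mul_ne_zero (Finset.prod_ne_zero_iff.2 fun v _ => v.ne_bot) hC₂
  obtain ⟨c, hc⟩ : ∃ c : Finset (HeightOneSpectrum (𝓞 F)) → ℂ, c = fun T =>
      (∏ _v ∈ S \ T, (-1 : ℂ)) * (Ideal.absNorm (dT T * C₂) : ℂ) := ⟨_, rfl⟩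
  have hcT : ∀ T, c T = (∏ _v ∈ S \ T, (-1 : ℂ)) * (Ideal.absNorm (dT T * C₂) : ℂ) := fun T => by
    rw [hc]
  have hsum : ∀ T ∈ S.powerset, Summable fun I : Ideal (𝓞 F) =>
      c T * ((X I * if dT T * C₂ ∣ I then 1 else 0) * (Ideal.absNorm I : ℂ) ^ (-s)) := by
    intro T _
    refine Summable.mul_left (c T) (Summable.of_norm ?_)
    refine summable_ideals_mul F (fun I => X I * if dT T * C₂ ∣ I then 1 else 0) 1 (1 / 2)
      (fun I => ?_) s (by linarith) hs0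
    rw [one_mul, hXI, mul_assoc]
    refine norm_pB_mul_le hf (fun I => indC M I * if dT T * C₂ ∣ I then 1 else 0) I ?_
    simp only [norm_mul]
    refine mul_le_one₀ (norm_indC_le M I) (norm_nonneg _) ?_
    split_ifs
    · rw [norm_one]
    · rw [norm_zero]
      exact zero_le_one
  have h1 : Lf (fun I => pB Ψ I * (indC M I * ramW S C₂ I)) s =
      ∑ T ∈ S.powerset, c T * Lf (fun I => X I * if dT T * C₂ ∣ I then 1 else 0) s := by
    have e1 : Lf (fun I => pB Ψ I * (indC M I * ramW S C₂ I)) s =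
        ∑' I : Ideal (𝓞 F), ∑ T ∈ S.powerset,
          c T * ((X I * if dT T * C₂ ∣ I then 1 else 0) * (Ideal.absNorm I : ℂ) ^ (-s)) := by
      refine tsum_congr fun I => ?_
      show pB Ψ I * (indC M I * ramW S C₂ I) * (Ideal.absNorm I : ℂ) ^ (-s) = _
      rw [ramW, ← mul_assoc, ← hXI, Finset.mul_sum, Finset.sum_mul]
      refine Finset.sum_congr rfl fun T _ => ?_
      rw [hcT]
      ring
    rw [e1, Summable.tsum_finsetSum hsum]
    refine Finset.sum_congr rfl fun T _ => ?_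
    rw [tsum_mul_left]
    rfl
  -- the completely multiplicative function
  obtain ⟨φ, hφ⟩ : ∃ φ : Ideal (𝓞 F) →* ℂ, ∀ I, φ I =
      pB Ψ I * (Ideal.absNorm I : ℂ) ^ (1 - s) :=
    ⟨{ toFun := fun I => pB Ψ I * (Ideal.absNorm I : ℂ) ^ (1 - s)
       map_one' := by
        rw [pB_one hf, map_one, Nat.cast_one, Complex.one_cpow, mul_one]
       map_mul' := fun I J => by
        rw [pB_mul hf, map_mul, Nat.cast_mul, Complex.natCast_mul_natCast_cpow]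
        ring }, fun I => rfl⟩
  have h2 : ∀ T ∈ S.powerset, c T * Lf (fun I => X I * if dT T * C₂ ∣ I then 1 else 0) s =
      ((∏ v ∈ T, φ v.asIdeal) * ∏ _v ∈ S \ T, (-1 : ℂ)) * (φ C₂ * Lf X s) := by
    intro T hT
    rw [Lf_dvd X hXm (dT T * C₂) (hE0 T) s hs, hcT, hXI (dT T * C₂), indC_of (hE T hT), mul_one]
    have hN : (Ideal.absNorm (dT T * C₂) : ℂ) ≠ 0 := by
      have := Ideal.absNorm_ne_zero_iff_mem_nonZeroDivisors.mpr
        (mem_nonZeroDivisors_iff_ne_zero.mpr (hE0 T))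
      exact_mod_cast this
    have e2 : (Ideal.absNorm (dT T * C₂) : ℂ) * (Ideal.absNorm (dT T * C₂) : ℂ) ^ (-s) =
        (Ideal.absNorm (dT T * C₂) : ℂ) ^ (1 - s) := by
      rw [sub_eq_add_neg, Complex.cpow_add _ _ hN, Complex.cpow_one]
    have e3 : φ (dT T * C₂) = (∏ v ∈ T, φ v.asIdeal) * φ C₂ := by
      rw [map_mul, dT, map_prod]
    have e4 := hφ (dT T * C₂)
    rw [← e2, e3] at e4
    linear_combination -((∏ _v ∈ S \ T, (-1 : ℂ)) * Lf X s) * e4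
  rw [h1, Finset.sum_congr rfl h2, ← Finset.sum_mul, ← Finset.prod_add, hX,
    Lf_indC hf M B hB s hs, ER, hφ C₂]
  have h3 : ∀ v ∈ S, φ v.asIdeal + -1 =
      pB Ψ v.asIdeal * (Ideal.absNorm v.asIdeal : ℂ) ^ (1 - s) - 1 := fun v _ => by
    rw [hφ]
    ring
  rw [Finset.prod_congr rfl h3]
  ring

end

end Pool.Agent.Lib.MP_1a91b9_nuY
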