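import Pool.Agent.Lib.MP_1a91b9_nuY.AN.Fam
import Pool.Agent.Lib.MP_1a91b9_nuG.Vals
import Pool.Agent.Lib.MP_1a91b9_nuW.WN.Pl

/-!
# Twisted base: valuations
-/

set_option autoImplicit false

namespace Pool.Agent.Lib.MP_1a91b9_nuY

variable [Pool.Agent.Lib.MP_1a91b9_nuT.CD]

open Pool.Agent.Lib.MP_1a91b9_nuT hiding cj
open NumberField IsDedekindDomain Module Pool.Agent.Lib.MP_1a91b9_nt
  Pool.Agent.Lib.MP_1a91b9_nuT.S4 Pool.Agent.Lib.MP_1a91b9_nuG Pool.Agent.Lib.MP_1a91b9_nuX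
  Pool.Agent.Lib.MP_1a91b9_nuW Pool.Agent.Lib.MP_1a91b9_nuW.WN

universe u

section
variable {F : Type u} [Field F] [NumberField F] {ℓ : ℕ} [hℓ : Fact ℓ.Prime]
  [Algebra K F] {f : 𝓞 K} {Ψ : Ideal (𝓞 F) → 𝓞 K}

/-- The Euler factor at `1`. -/
theorem euler_at_one (hf : HF f F Ψ) (v : HeightOneSpectrum (𝓞 F)) (h3 : up f F ∉ v.asIdeal) :
    pC Ψ v.asIdeal ≠ 0 ∧ 1 - pB Ψ v.asIdeal * (Ideal.absNorm v.asIdeal : ℂ) ^ (-1 : ℂ) =
      (pC Ψ v.asIdeal - 1) / pC Ψ v.asIdeal := by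
  have h1 := pC_mul_pB hf v.asIdeal (coprime_of_not_mem v _ h3)
  have hN : (Ideal.absNorm v.asIdeal : ℂ) ≠ 0 := by
    have := Ideal.absNorm_ne_zero_iff_mem_nonZeroDivisors.mpr
      (mem_nonZeroDivisors_iff_ne_zero.mpr v.ne_bot)
    exact_mod_cast this
  have h0 : pC Ψ v.asIdeal ≠ 0 := by
    intro h
    rw [h, zero_mul] at h1
    exact hN h1.symm
  have h2 : pB Ψ v.asIdeal ≠ 0 := by
    rw [pB]
    exact (map_ne_zero _).mpr h0
  refine ⟨h0, ?_⟩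
  rw [Complex.cpow_neg_one, ← h1]
  field_simp

include hℓ in
/-- the Euler factor at an admissible place -/
theorem val_euler (hf : HF f F Ψ) (W : ValuationSubring ℂ) (hW : (ℓ : ℂ)⁻¹ ∉ W) (v : HeightOneSpectrum (𝓞 F))
    (h3 : up f F ∉ v.asIdeal) (hv : (ℓ : 𝓞 F) ∉ v.asIdeal)
    (ha : IsCoprime (Ψ v.asIdeal - 1) (ℓ : 𝓞 K)) :
    W.valuation (1 - pB Ψ v.asIdeal * (Ideal.absNorm v.asIdeal : ℂ) ^ (-1 : ℂ)) = 1 := by
  obtain ⟨h0, e⟩ := euler_at_one hf v h3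
  have hi : IsIntegral ℤ (pC Ψ v.asIdeal) := isIntegral_pC Ψ _
  have hib : IsIntegral ℤ (pB Ψ v.asIdeal) := hi.map (starRingEnd ℂ).toIntAlgHom
  have h5 : W.valuation (pC Ψ v.asIdeal) = 1 := by
    refine val_eq_one_of_mul W (val_integral W hi) (val_integral W hib) ?_
    rw [pC_mul_pB hf v.asIdeal (coprime_of_not_mem v _ h3)]
    exact val_coprime W hW _ (absNorm_coprime v hv)
  have h4 : W.valuation (pC Ψ v.asIdeal - 1) = 1 := by
    obtain ⟨a, b, hab⟩ := ha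
    have hK : ∀ x : 𝓞 K, IsIntegral ℤ (embK (x : K)) := by
      intro x
      have h : IsIntegral ℤ (x : K) := RingOfIntegers.isIntegral_coe _
      exact h.map embK.toRingHom.toIntAlgHom
    have h6 : (pC Ψ v.asIdeal - 1) * embK (a : K) = 1 + -((ℓ : ℂ) * embK (b : K)) := by
      have h7 := congrArg (fun x : 𝓞 K => embK (x : K)) hab
      simp only [map_add, map_mul, map_sub, map_one, map_natCast] at h7
      rw [pC]
      linear_combination h7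
    refine val_eq_one_of_mul W (val_integral W (hi.sub isIntegral_one))
      (val_integral W (hK a)) ?_
    rw [h6]
    refine val_unit_add W (map_one _) ?_
    rw [Valuation.map_neg, map_mul]
    calc W.valuation (ℓ : ℂ) * _ ≤ W.valuation (ℓ : ℂ) * 1 :=
          mul_le_mul_right (val_integral W (hK b)) _
      _ < 1 := by rw [mul_one]; exact val_q W hW
  rw [e, map_div₀, h5, h4, div_one]

end

section
variable {F : Type u} [Field F] [NumberField F] [Algebra K F]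

private theorem pl_relNorm_dvd (I : Ideal (𝓞 F)) (a : 𝓞 K) (h : I ∣ Ideal.span {up a F}) :
    ∃ n : ℕ, Ideal.relNorm (𝓞 K) I ∣ Ideal.span {a ^ n} := by
  refine ⟨finrank (𝓞 K) (𝓞 F), ?_⟩
  have h1 : Ideal.relNorm (𝓞 K) I ∣ Ideal.relNorm (𝓞 K) (Ideal.span {up a F}) := map_dvd _ h
  have h2 : Ideal.relNorm (𝓞 K) (Ideal.span {up a F}) =
      Ideal.span {a ^ finrank (𝓞 K) (𝓞 F)} := by
    have h3 := Ideal.relNorm_algebraMap (𝓞 F) (Ideal.span {a})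
    rw [Ideal.map_span, Set.image_singleton, Ideal.span_singleton_pow] at h3
    exact h3
  rwa [h2] at h1

private theorem pl_dvd (I : Ideal (𝓞 F)) (a c : 𝓞 K) (k : ℕ) (h : I ∣ Ideal.span {up (a ^ k) F})
    (hc : Ideal.relNorm (𝓞 K) I = Ideal.span {c}) : ∃ n : ℕ, c ∣ a ^ n := by
  obtain ⟨n, hn⟩ := pl_relNorm_dvd I _ h
  rw [hc, Ideal.dvd_span_singleton, Ideal.mem_span_singleton] at hn
  exact ⟨k * n, by rw [pow_mul]; exact hn⟩

omit [NumberField F] in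
private theorem pl_cop (a : 𝓞 K) (f : 𝓞 K) (h : IsCoprime f a) (k : ℕ) (I : Ideal (𝓞 F))
    (hI : I ∣ Ideal.span {up (a ^ k) F}) : IsCoprime I (Ideal.span {up f F}) := by
  have h1 : IsCoprime (Ideal.span {up (a ^ k) F}) (Ideal.span {up f F}) := by
    rw [Ideal.isCoprime_span_singleton_iff]
    exact ((h.symm.pow_left (m := k))).map (algebraMap (𝓞 K) (𝓞 F))
  exact h1.of_isCoprime_of_dvd_left hI

end

section
variable {F : Type u} [Field F] [NumberField F] [Algebra K F] {f : 𝓞 K} {Ψ : Ideal (𝓞 F) → 𝓞 K}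
  {p : 𝓞 K} {ℓ : ℕ} {A : ValuationSubring ℂ}

theorem val_pB (hf : HF f F Ψ) (hp : Spl p ℓ) (hA : PlP p A) (hfℓ : IsCoprime f (ℓ : 𝓞 K))
    (I : Ideal (𝓞 F)) (k : ℕ) (hI : I ∣ Ideal.span {up (p ^ k) F}) :
    A.valuation (pB Ψ I) = 1 := by
  have h1 : IsCoprime f p := hfℓ.of_isCoprime_of_dvd_right ⟨cK p, hp.mul.symm⟩
  have h2 := hf.span I (pl_cop p f h1 k I hI)
  obtain ⟨n, hn⟩ := pl_dvd I p _ k hI h2.symm
  exact val_conj_dvd_p hp hA _ n hn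

theorem val_pC (hf : HF f F Ψ) (hp : Spl p ℓ) (hA : PlP p A) (hfℓ : IsCoprime f (ℓ : 𝓞 K))
    (I : Ideal (𝓞 F)) (k : ℕ) (hI : I ∣ Ideal.span {up (cK p ^ k) F}) :
    A.valuation (pC Ψ I) = 1 := by
  have h1 : IsCoprime f (cK p) :=
    hfℓ.of_isCoprime_of_dvd_right ⟨p, by rw [mul_comm]; exact hp.mul.symm⟩
  have h2 := hf.span I (pl_cop (cK p) f h1 k I hI)
  obtain ⟨n, hn⟩ := pl_dvd I (cK p) _ k hI h2.symm
  exact val_dvd_cKp hp hA _ n hn

omit [NumberField F] [Algebra K F] in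
theorem val_pC_sub (hp : Spl p ℓ) (hA : PlP p A) (v : HeightOneSpectrum (𝓞 F))
    (hadm : IsCoprime (Ψ v.asIdeal - 1) (ℓ : 𝓞 K)) :
    A.valuation (pC Ψ v.asIdeal - 1) = 1 := by
  have h1 := val_coprime_p hA _ (hadm.of_isCoprime_of_dvd_right ⟨cK p, hp.mul.symm⟩)
  have e : pC Ψ v.asIdeal - 1 = embK ((Ψ v.asIdeal - 1 : 𝓞 K) : K) := by
    rw [pC]
    simp
  rw [e]
  exact h1

omit [NumberField F] [Algebra K F] in
theorem val_pB_sub (hp : Spl p ℓ) (hA : PlP p A) (v : HeightOneSpectrum (𝓞 F))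
    (hadm : IsCoprime (Ψ v.asIdeal - 1) (ℓ : 𝓞 K)) :
    A.valuation (pB Ψ v.asIdeal - 1) = 1 := by
  have h2 : IsCoprime (cK (Ψ v.asIdeal - 1)) p := by
    have hd : cK p ∣ (ℓ : 𝓞 K) := ⟨p, by rw [mul_comm]; exact hp.mul.symm⟩
    have h3 := hadm.of_isCoprime_of_dvd_right hd
    have h4 := h3.map (Pool.Agent.Lib.MP_1a91b9_nuT.cj)
    rw [Pool.Agent.Lib.MP_1a91b9_nuT.cj_cj] at h4
    exact h4
  have h1 := val_coprime_p hA _ h2
  have e : pB Ψ v.asIdeal - 1 = embK ((cK (Ψ v.asIdeal - 1) : 𝓞 K) : K) := by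
    rw [emb_cK, pB, pC]
    simp
  rw [e]
  exact h1

/-- the Euler factor at `1` at a place not above `p` (it may be above `cK p`) -/
theorem val_eulerP (hf : HF f F Ψ) (hp : Spl p ℓ) (hA : PlP p A) (v : HeightOneSpectrum (𝓞 F))
    (hv : up p F ∉ v.asIdeal)
    (hadm : up f F ∉ v.asIdeal → IsCoprime (Ψ v.asIdeal - 1) (ℓ : 𝓞 K)) :
    A.valuation (1 - pB Ψ v.asIdeal * (Ideal.absNorm v.asIdeal : ℂ) ^ (-1 : ℂ)) = 1 := by
  by_cases h3 : up f F ∈ v.asIdeal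
  · rw [pB_bad hf v h3, zero_mul, sub_zero, map_one]
  · obtain ⟨h0, e⟩ := euler_at_one hf v h3
    have h1 : A.valuation (pC Ψ v.asIdeal) = 1 := by
      have h2 := hf.span v.asIdeal (coprime_of_not_mem v _ h3)
      exact val_relNorm_cop hA v.asIdeal (coprime_of_not_mem v _ hv) _ h2.symm
    rw [e, map_div₀, h1, val_pC_sub hp hA v (hadm h3), div_one]

end

end Pool.Agent.Lib.MP_1a91b9_nuY
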