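import Pool.Agent.Lib.MP_1a91b9_nuY.AN.LR
import Pool.Agent.Lib.MP_1a91b9_nuY.AN.Vals
import Pool.Agent.Lib.MP_1a91b9_nuW.WN.Disc
import Pool.Agent.Lib.MP_1a91b9_nuW.WN.GoodA

/-!
# Twisted base: the arithmetic data of the wild step
-/

set_option autoImplicit false

namespace Pool.Agent.Lib.MP_1a91b9_nuY

variable [Pool.Agent.Lib.MP_1a91b9_nuT.CD]

open Pool.Agent.Lib.MP_1a91b9_nuT hiding cj
open NumberField IsDedekindDomain Module Pool.Agent.Lib.MP_1a91b9_nt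
  Pool.Agent.Lib.MP_1a91b9_nuT.S4 Pool.Agent.Lib.MP_1a91b9_nuG Pool.Agent.Lib.MP_1a91b9_nuX
  Pool.Agent.Lib.MP_1a91b9_nuW Pool.Agent.Lib.MP_1a91b9_nuW.WN

universe u

section
variable {F F' : Type u} [Field F] [NumberField F] [Field F'] [NumberField F'] [Algebra F F']
  [Algebra K F]

/-- the arithmetic data of the wild step -/
structure SD (g p : 𝓞 K) (ℓ : ℕ) (F' : Type u) [Field F'] [NumberField F'] [Algebra F F']
    (f C C₁ f₂ C₂ m : Ideal (𝓞 F)) (S B : Finset (HeightOneSpectrum (𝓞 F))) (k : ℕ) : Prop where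
  f0 : f ≠ 0
  C0 : C ≠ 0
  C₁0 : C₁ ≠ 0
  m0 : m ≠ 0
  m1 : m ≠ 1
  m3 : m ≤ Ideal.span {up g F}
  mℓ : IsCoprime m (Ideal.span {(ℓ : 𝓞 F)})
  k1 : 1 ≤ k
  dec : f = C * C₁ * f₂
  Cp : C ∣ Ideal.span {up (p ^ k) F}
  C₁p : C₁ ∣ Ideal.span {up (cK p ^ k) F}
  f₂ℓ : IsCoprime f₂ (Ideal.span {(ℓ : 𝓞 F)})
  f₂m : f₂ ∣ m
  fv : ∀ v : HeightOneSpectrum (𝓞 F), f ≤ v.asIdeal ↔ Ram F' v
  mv : ∀ v : HeightOneSpectrum (𝓞 F), m ≤ v.asIdeal → up g F ∈ v.asIdeal ∨ Ram F' v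
  memS : ∀ v, v ∈ S ↔ C ≤ v.asIdeal
  eqC : C = dT S * C₂
  memB : ∀ v, v ∈ B ↔ C₁ * m ≤ v.asIdeal

/-- the arithmetic data exist -/
theorem exists_SD {g : 𝓞 K} {Ψ : Ideal (𝓞 F) → 𝓞 K} (hf : HF g F Ψ) {p : 𝓞 K} {ℓ : ℕ}
    (hp : Spl p ℓ) (hfℓ : IsCoprime g (ℓ : 𝓞 K))
    (x : HeightOneSpectrum (𝓞 F) → ZMod ℓ) (f : Ideal (𝓞 F)) (hx : WX ℓ F' x f) :
    ∃ (C C₁ f₂ C₂ m : Ideal (𝓞 F)) (S B : Finset (HeightOneSpectrum (𝓞 F))) (k : ℕ),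
      SD g p ℓ F' f C C₁ f₂ C₂ m S B k := by
  classical
  obtain ⟨C, C₁, f₂, k, hd, hC, hC₁, hf₂, hk⟩ := exists_dec hp f hx.ne
  have hne := hx.ne
  rw [hd] at hne
  have hC0 : C ≠ 0 := left_ne_zero_of_mul (left_ne_zero_of_mul hne)
  have hC₁0 : C₁ ≠ 0 := right_ne_zero_of_mul (left_ne_zero_of_mul hne)
  have hf₂0 : f₂ ≠ 0 := right_ne_zero_of_mul hne
  have hup0 : Ideal.span {up g F} ≠ 0 := hf.up_ne
  have hupℓ : IsCoprime (Ideal.span {up g F}) (Ideal.span {(ℓ : 𝓞 F)}) := by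
    rw [Ideal.isCoprime_span_singleton_iff]
    have h := hfℓ.map (algebraMap (𝓞 K) (𝓞 F))
    rwa [map_natCast] at h
  have hm0 : f₂ * Ideal.span {up g F} ≠ 0 := mul_ne_zero hf₂0 hup0
  have hfin : ∀ I : Ideal (𝓞 F), I ≠ 0 →
      {v : HeightOneSpectrum (𝓞 F) | I ≤ v.asIdeal}.Finite := by
    intro I hI
    refine (Ideal.finite_factors hI).subset fun v hv => ?_
    exact Ideal.dvd_iff_le.mpr hv
  have hS : ∀ v, v ∈ (hfin C hC0).toFinset ↔ C ≤ v.asIdeal := fun v => by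
    rw [Set.Finite.mem_toFinset]; rfl
  have hdvd : dT (hfin C hC0).toFinset ∣ C := by
    refine Finset.prod_dvd_of_coprime ?_ ?_
    · intro v _ w _ hvw
      have h1 : v.asIdeal.IsMaximal := v.isMaximal
      have h2 : w.asIdeal.IsMaximal := w.isMaximal
      exact Ideal.isCoprime_of_isMaximal fun h => hvw (HeightOneSpectrum.ext h)
    · intro v hv
      exact Ideal.dvd_iff_le.mpr ((hS v).mp hv)
  obtain ⟨C₂, hC₂⟩ := hdvd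
  refine ⟨C, C₁, f₂, C₂, f₂ * Ideal.span {up g F}, (hfin C hC0).toFinset,
    (hfin (C₁ * (f₂ * Ideal.span {up g F})) (mul_ne_zero hC₁0 hm0)).toFinset, k, ?_⟩
  refine ⟨hx.ne, hC0, hC₁0, hm0, ?_, Ideal.mul_le_right, hf₂.mul_left hupℓ, hk, hd, hC, hC₁, hf₂,
    Dvd.intro _ rfl, hx.supp, ?_, hS, hC₂, ?_⟩
  · intro h
    refine hf.up_ne_top ?_
    rw [Ideal.one_eq_top, ← top_le_iff, ← Ideal.one_eq_top, ← h]
    exact Ideal.mul_le_right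
  · intro v hv
    rcases (v.isPrime.mul_le).mp hv with h | h
    · right
      rw [← hx.supp v, hd]
      exact Ideal.mul_le_right.trans h
    · left
      exact h (Ideal.mem_span_singleton_self _)
  · intro v
    rw [Set.Finite.mem_toFinset]; rfl

variable {g p : 𝓞 K} {Ψ : Ideal (𝓞 F) → 𝓞 K} {ℓ : ℕ} {f C C₁ f₂ C₂ m : Ideal (𝓞 F)}
  {S B : Finset (HeightOneSpectrum (𝓞 F))} {k : ℕ}

theorem SD.C_dvd (h : SD g p ℓ F' f C C₁ f₂ C₂ m S B k) : C ∣ f := by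
  rw [h.dec, mul_assoc]
  exact Dvd.intro _ rfl

theorem SD.C₁_dvd (h : SD g p ℓ F' f C C₁ f₂ C₂ m S B k) : C₁ ∣ f := by
  rw [h.dec, mul_comm C C₁, mul_assoc]
  exact Dvd.intro _ rfl

theorem SD.C₂0 (h : SD g p ℓ F' f C C₁ f₂ C₂ m S B k) : C₂ ≠ 0 := by
  have h1 := h.C0
  rw [h.eqC] at h1
  exact right_ne_zero_of_mul h1

/-- `f₁ = C₁ * f₂` (for `kap_exact`) -/
theorem SD.f_eq (h : SD g p ℓ F' f C C₁ f₂ C₂ m S B k) : f = C * (C₁ * f₂) := by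
  rw [← mul_assoc]
  exact h.dec

theorem SD.f₁_dvd (h : SD g p ℓ F' f C C₁ f₂ C₂ m S B k) : C₁ * f₂ ∣ C₁ * m := by
  exact mul_dvd_mul_left _ h.f₂m

/-- `f ∣ ℓ ^ k m` -/
theorem SD.f_dvd (h : SD g p ℓ F' f C C₁ f₂ C₂ m S B k) :
    f ∣ Ideal.span {algebraMap (𝓞 K) (𝓞 F) ((p * cK p) ^ k)} * m := by
  rw [h.dec]
  refine mul_dvd_mul ?_ h.f₂m
  have e : Ideal.span {algebraMap (𝓞 K) (𝓞 F) ((p * cK p) ^ k)} =
      Ideal.span {up (p ^ k) F} * Ideal.span {up (cK p ^ k) F} := by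
    rw [Ideal.span_singleton_mul_span_singleton, mul_pow, map_mul]
  rw [e]
  exact mul_dvd_mul h.Cp h.C₁p

theorem SD.M_ne (h : SD g p ℓ F' f C C₁ f₂ C₂ m S B k) : C₁ * m ≠ 1 := by
  intro h1
  apply h.m1
  rw [Ideal.one_eq_top, ← top_le_iff, ← Ideal.one_eq_top, ← h1]
  exact Ideal.mul_le_right

/-- the places in `S` are ramified, above `p`, good, and do not contain `C₁ * m` -/
theorem SD.S_ram (hp : Spl p ℓ) (hfℓ : IsCoprime g (ℓ : 𝓞 K))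
    (h : SD g p ℓ F' f C C₁ f₂ C₂ m S B k) (v : HeightOneSpectrum (𝓞 F)) (hv : v ∈ S) :
    Ram F' v ∧ up p F ∈ v.asIdeal ∧ up g F ∉ v.asIdeal ∧ ¬ C₁ * m ≤ v.asIdeal := by
  have h1 := (h.memS v).mp hv
  have hp1 : up (p ^ k) F ∈ v.asIdeal := by
    have h2 := Ideal.dvd_iff_le.mp ((Ideal.dvd_iff_le.mpr h1).trans h.Cp)
    exact h2 (Ideal.mem_span_singleton_self _)
  have hp2 : up p F ∈ v.asIdeal := by
    refine v.isPrime.mem_of_pow_mem k ?_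
    have e : up (p ^ k) F = up p F ^ k := by rw [up, map_pow]
    rw [← e]
    exact hp1
  have hone : (1 : 𝓞 F) ∉ v.asIdeal := fun h' =>
    v.isPrime.ne_top ((Ideal.eq_top_iff_one _).mpr h')
  refine ⟨?_, hp2, ?_, ?_⟩
  · rw [← h.fv v]
    exact (Ideal.dvd_iff_le.mp h.C_dvd).trans h1
  · intro h3
    have h4 : IsCoprime g p := hfℓ.of_isCoprime_of_dvd_right ⟨cK p, hp.mul.symm⟩
    obtain ⟨a, c, hac⟩ := h4.map (algebraMap (𝓞 K) (𝓞 F))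
    apply hone
    rw [← hac]
    exact Ideal.add_mem _ (Ideal.mul_mem_left _ _ h3) (Ideal.mul_mem_left _ _ hp2)
  · intro h3
    have h4 := coprime_upP (F := F) hp C₁ m k h.C₁p h.mℓ
    rw [Ideal.isCoprime_iff_sup_eq] at h4
    apply v.isPrime.ne_top
    rw [← top_le_iff, ← h4]
    exact sup_le h3 ((Ideal.span_singleton_le_iff_mem _).mpr hp2)

/-- the places in `B` are not above `p`, and bad or ramified -/
theorem SD.B_ram (hp : Spl p ℓ) (h : SD g p ℓ F' f C C₁ f₂ C₂ m S B k)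
    (v : HeightOneSpectrum (𝓞 F)) (hv : v ∈ B) :
    up p F ∉ v.asIdeal ∧ (up g F ∈ v.asIdeal ∨ Ram F' v) := by
  have h3 := (h.memB v).mp hv
  refine ⟨?_, ?_⟩
  · intro hp2
    have h4 := coprime_upP (F := F) hp C₁ m k h.C₁p h.mℓ
    rw [Ideal.isCoprime_iff_sup_eq] at h4
    apply v.isPrime.ne_top
    rw [← top_le_iff, ← h4]
    exact sup_le h3 ((Ideal.span_singleton_le_iff_mem _).mpr hp2)
  · rcases (v.isPrime.mul_le).mp h3 with h1 | h1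
    · right
      rw [← h.fv v]
      exact (Ideal.dvd_iff_le.mp h.C₁_dvd).trans h1
    · exact h.mv v h1

/-- `C₂` is coprime to `C₁ * m` -/
theorem SD.C₂_cop (hp : Spl p ℓ) (h : SD g p ℓ F' f C C₁ f₂ C₂ m S B k) :
    IsCoprime C₂ (C₁ * m) := by
  have h1 : IsCoprime C C₁ := coprime_of_dvdP hp C C₁ k h.Cp h.C₁p
  have h2 : IsCoprime C m := coprime_of_dvd_ell hp C m k (Or.inl h.Cp) h.mℓ
  exact (h1.mul_right h2).of_isCoprime_of_dvd_left ⟨dT S, by rw [h.eqC, mul_comm]⟩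

/-- the local data at the ideals prime to `ℓ` -/
theorem SD.exists_LD [hℓ : Fact ℓ.Prime] (hp : Spl p ℓ) (h : SD g p ℓ F' f C C₁ f₂ C₂ m S B k)
    (x : HeightOneSpectrum (𝓞 F) → ZMod ℓ) (hx : WX ℓ F' x f) (b : Ideal (𝓞 F)) (hb0 : b ≠ 0)
    (hbℓ : IsCoprime b (Ideal.span {(ℓ : 𝓞 F)})) : ∃ e : 𝓞 F, LD x f C (C₁ * m) b e := by
  have h1 : IsCoprime C C₁ := coprime_of_dvdP hp C C₁ k h.Cp h.C₁p
  have h2 : IsCoprime C m := coprime_of_dvd_ell hp C m k (Or.inl h.Cp) h.mℓ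
  have h3 : IsCoprime C b := coprime_of_dvd_ell hp C b k (Or.inl h.Cp) hbℓ
  obtain ⟨a, ha, e, he, hae⟩ := Ideal.isCoprime_iff_exists.mp ((h1.mul_right h2).mul_right h3)
  refine ⟨e, hx.ray, h.f0, h.C0, mul_ne_zero h.C₁0 h.m0, h.M_ne, hb0, ?_, h1.mul_right h2, h3,
    ?_, he⟩
  · rw [h.f_eq]
    exact mul_dvd_mul_left _ h.f₁_dvd
  · have h4 : e - 1 = -a := by rw [← hae]; ring
    rw [h4]
    exact neg_mem ha

/-- the Euler factors of the Ramanujan weight are units at the places above `p` -/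
theorem SD.val_ER (hf : HF g F Ψ) (hp : Spl p ℓ) (hfℓ : IsCoprime g (ℓ : 𝓞 K))
    (h : SD g p ℓ F' f C C₁ f₂ C₂ m S B k)
    (hadm : ∀ v : HeightOneSpectrum (𝓞 F), Ram F' v → up g F ∉ v.asIdeal →
      IsCoprime (Ψ v.asIdeal - 1) (ℓ : 𝓞 K)) {A : ValuationSubring ℂ} (hA : PlP p A) :
    A.valuation (ER Ψ S B C₂ 1) = 1 := by
  have h0 : (1 : ℂ) - 1 = 0 := sub_self 1
  have h1 : A.valuation (pB Ψ C₂) = 1 :=
    val_pB hf hp hA hfℓ C₂ k (Dvd.dvd.trans ⟨dT S, by rw [h.eqC, mul_comm]⟩ h.Cp)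
  rw [ER]
  simp only [h0, Complex.cpow_zero, mul_one]
  rw [map_mul, map_mul, h1, one_mul, map_prod, map_prod]
  have h2 : ∏ v ∈ S, A.valuation (pB Ψ v.asIdeal - 1) = 1 := by
    refine Finset.prod_eq_one fun v hv => ?_
    obtain ⟨h3, -, h4, -⟩ := h.S_ram hp hfℓ v hv
    exact val_pB_sub hp hA v (hadm v h3 h4)
  rw [h2, one_mul]
  refine Finset.prod_eq_one fun v hv => ?_
  obtain ⟨h3, h4⟩ := h.B_ram hp v hv
  exact val_eulerP hf hp hA v h3 fun h5 => hadm v (h4.resolve_left h5) h5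

end

section
variable {F F' : Type u} [Field F] [NumberField F] [Field F'] [NumberField F'] [Algebra F F']
  [Algebra K F] {g p : 𝓞 K} {ℓ : ℕ} [hℓ : Fact ℓ.Prime] {x : HeightOneSpectrum (𝓞 F) → ZMod ℓ}
  {f C C₁ f₂ C₂ m b : Ideal (𝓞 F)} {S B : Finset (HeightOneSpectrum (𝓞 F))} {k : ℕ} {e : 𝓞 F}
  {θ : F} [Fintype (𝓞 F ⧸ C)]

theorem SD.toWD (hp : Spl p ℓ) (h : SD g p ℓ F' f C C₁ f₂ C₂ m S B k) (hx : WX ℓ F' x f)
    (θ1 : ∀ z ∈ C, ∃ a : 𝓞 K, Algebra.trace K F (θ * (z : F)) = a)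
    (θ2 : AC C (fun z : 𝓞 F => eF θ (z : F))) :
    WD p F' x f C C₁ (C₁ * f₂) m (C₁ * m) θ k := by
  refine ⟨hp, rfl, h.f_eq, h.f₁_dvd, h.C₁_dvd, h.fv, ?_, h.Cp, h.C₁p, h.mℓ, h.m1, θ1, θ2⟩
  intro v g₁ hg hv
  refine hx.exact v g₁ ?_ hg
  rw [← h.fv v]
  exact (Ideal.dvd_iff_le.mp h.C_dvd).trans hv

theorem SD.HW_val (hp : Spl p ℓ) (h : SD g p ℓ F' f C C₁ f₂ C₂ m S B k) (hx : WX ℓ F' x f)
    (hl : LD x f C (C₁ * m) b e)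
    (θ1 : ∀ z ∈ C, ∃ a : 𝓞 K, Algebra.trace K F (θ * (z : F)) = a)
    (θ2 : AC C (fun z : 𝓞 F => eF θ (z : F))) (j : ZMod ℓ) (hj : j ≠ 0)
    (I : Ideal (𝓞 F)) (r : 𝓞 F) (hI : I * b = Ideal.span {r}) (hIm : IsCoprime I m) :
    HW x C (C₁ * m) b e θ j r = tauW x C e θ j * chiM F' x m j I := by
  exact (h.toWD hp hx θ1 θ2).HW_val hl j hj I r hI hIm

theorem SD.HW_zero (hp : Spl p ℓ) (h : SD g p ℓ F' f C C₁ f₂ C₂ m S B k) (hx : WX ℓ F' x f)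
    (hl : LD x f C (C₁ * m) b e)
    (θ1 : ∀ z ∈ C, ∃ a : 𝓞 K, Algebra.trace K F (θ * (z : F)) = a)
    (θ2 : AC C (fun z : 𝓞 F => eF θ (z : F)))
    (I : Ideal (𝓞 F)) (r : 𝓞 F) (hI : I * b = Ideal.span {r}) :
    HW x C (C₁ * m) b e θ 0 r = indC (C₁ * m) I * ramW S C₂ I := by
  exact (h.toWD hp hx θ1 θ2).HW_zero hl S C₂ h.eqC h.memS I r hI

/-- the product of the Gauss sums of opposite characters -/
theorem SD.tauW_mul (hp : Spl p ℓ) (h : SD g p ℓ F' f C C₁ f₂ C₂ m S B k) (hx : WX ℓ F' x f)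
    (hl : LD x f C (C₁ * m) b e)
    (θ1 : ∀ z ∈ C, ∃ a : 𝓞 K, Algebra.trace K F (θ * (z : F)) = a)
    (θ2 : AC C (fun z : 𝓞 F => eF θ (z : F))) (j : ZMod ℓ) (hj : j ≠ 0) :
    tauW x C e θ j * tauW x C e θ (-j) = (Ideal.absNorm C : ℂ) := by
  have D := h.toWD hp hx θ1 θ2
  have h1 := hl.kap_MC j
  have h2 := hl.kap_MC (-j)
  rw [neg_neg] at h2
  have h3 := gsum_mul_gsum h1 h2 θ2 (hl.kap_exact (C₁ * f₂) D.f_eq D.f₁M D.ex j hj)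
    (hl.kap_neg_one hp.odd (-j))
  rw [tauW, tauW, neg_neg, h3, ← Nat.card_eq_fintype_card]
  rfl

/-- the weight of the wild step is good -/
theorem SD.goodW (hp : Spl p ℓ) (h : SD g p ℓ F' f C C₁ f₂ C₂ m S B k) (hx : WX ℓ F' x f)
    (hl : LD x f C (C₁ * m) b e)
    (θ1 : ∀ z ∈ C, ∃ a : 𝓞 K, Algebra.trace K F (θ * (z : F)) = a)
    (θ2 : AC C (fun z : 𝓞 F => eF θ (z : F))) (ε₁ : 𝓞 K) (hε : IsCoprime ε₁ (ℓ : 𝓞 K))
    (j : ZMod ℓ) (hj : j ≠ 0) (A : ValuationSubring ℂ) (t : 𝓞 F) (ht : t ∈ b)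
    (htm : t ∉ m * b) (ht2 : Ideal.span {t} ⊔ m * b = b) :
    GoodW p k (ε₁ ^ ℓ) m b t A
      (fun z => (HW x C (C₁ * m) b e θ j z - HW x C (C₁ * m) b e θ 0 z) /
        (ZMod.stdAddChar (1 : ZMod ℓ) - 1)) := by
  exact (h.toWD hp hx θ1 θ2).goodW hl S C₂ h.eqC h.memS ε₁ hε j hj A t ht htm ht2

/-- the weight of the trivial character is good -/
theorem SD.goodW_zero (hp : Spl p ℓ) (h : SD g p ℓ F' f C C₁ f₂ C₂ m S B k) (hx : WX ℓ F' x f)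
    (hl : LD x f C (C₁ * m) b e)
    (θ1 : ∀ z ∈ C, ∃ a : 𝓞 K, Algebra.trace K F (θ * (z : F)) = a)
    (θ2 : AC C (fun z : 𝓞 F => eF θ (z : F))) (ε₁ : 𝓞 K) (hε : IsCoprime ε₁ (ℓ : 𝓞 K))
    (A : ValuationSubring ℂ) (t : 𝓞 F) (ht : t ∈ b) :
    GoodW p k (ε₁ ^ ℓ) m b t A (HW x C (C₁ * m) b e θ 0) := by
  exact (h.toWD hp hx θ1 θ2).goodW_zero hl S C₂ h.eqC h.memS ε₁ hε A t ht

end

end Pool.Agent.Lib.MP_1a91b9_nuY
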