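import Pool.Agent.Lib.MP_1a91b9_nuY.AN.Vals
import Pool.Agent.Lib.MP_1a91b9_nuY.AN.Cyc
import Pool.Agent.Lib.MP_1a91b9_nuG.Step

/-!
# Twisted base: the cyclic step (tame)
-/

set_option autoImplicit false

namespace Pool.Agent.Lib.MP_1a91b9_nuY

variable [Pool.Agent.Lib.MP_1a91b9_nuT.CD]

open Pool.Agent.Lib.MP_1a91b9_nuT hiding cj
open NumberField IsDedekindDomain Module Pool.Agent.Lib.MP_1a91b9_nt
  Pool.Agent.Lib.MP_1a91b9_nuT.S4 Pool.Agent.Lib.MP_1a91b9_nuG Pool.Agent.Lib.MP_1a91b9_nuX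
  Pool.Agent.Lib.MP_1a91b9_nuW Pool.Agent.Lib.MP_1a91b9_nuW.WN

universe u

section
variable {F F' : Type u} [Field F] [NumberField F] [Field F'] [NumberField F'] [Algebra F F']
  [Algebra K F] {f : 𝓞 K} {Ψ : Ideal (𝓞 F) → 𝓞 K} {ℓ : ℕ} [hℓ : Fact ℓ.Prime]


/-- `ψbar_F χ_j` may be computed modulo `m` -/
theorem psChi_eq (hf : HF f F Ψ) (x : HeightOneSpectrum (𝓞 F) → ZMod ℓ) (m : Ideal (𝓞 F))
    (hmv : ∀ v : HeightOneSpectrum (𝓞 F), m ≤ v.asIdeal → up f F ∈ v.asIdeal ∨ Ram F' v)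
    (j : ZMod ℓ) (I : Ideal (𝓞 F)) :
    psChi F' Ψ x j I = pB Ψ I * chiM F' x m j I := by
  by_cases hI0 : I = 0
  · rw [hI0, psChi, pB_zero hf, zero_mul, zero_mul]
  by_cases hI : IsCoprime I m
  · rw [psChi, chiM_of hI]
  · rw [chiM_of_not hI, mul_zero, psChi]
    rw [Ideal.isCoprime_iff_sup_eq] at hI
    obtain ⟨P, hP, hle⟩ := Ideal.exists_le_maximal _ hI
    have hIP : I ≤ P := le_sup_left.trans hle
    have hP0 : P ≠ ⊥ := by
      rintro rfl
      rw [le_bot_iff] at hIP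
      exact hI0 hIP
    set v : HeightOneSpectrum (𝓞 F) := ⟨P, hP.isPrime, hP0⟩ with hv
    obtain ⟨J, hJ⟩ : v.asIdeal ∣ I := Ideal.dvd_iff_le.mpr hIP
    rw [hJ, pB_mul hf, mulI_mul, mulI_place]
    rcases hmv v (le_sup_right.trans hle) with h | h
    · rw [pB_bad hf v h]; ring
    · rw [cj, if_pos h]; ring

variable [Algebra K F'] [IsScalarTower K F F']


/-- THE CYCLIC STEP. -/
theorem step_main (hf : HF f F Ψ) [IsGalois F F'] (hL : Module.finrank F F' = ℓ)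
    (x : HeightOneSpectrum (𝓞 F) → ZMod ℓ) (hx : CFData ℓ F' x)
    (hfℓ : IsCoprime f (ℓ : 𝓞 K))
    (htame : ∀ v : HeightOneSpectrum (𝓞 F), Ram F' v → (ℓ : 𝓞 F) ∉ v.asIdeal)
    (hadm : ∀ v : HeightOneSpectrum (𝓞 F), Ram F' v → up f F ∉ v.asIdeal →
      IsCoprime (Ψ v.asIdeal - 1) (ℓ : 𝓞 K))
    (hV : ValueProp f ℓ Om F) (hV' : ValueProp f ℓ Om F') (hU : UnitT ℓ F Ψ) :
    UnitT ℓ F' (ovr F' Ψ) := by
  classical
  have hℓ0 : ℓ ≠ 0 := hℓ.out.ne_zero
  set T := (finite_ram (F := F) F').toFinset with hTdef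
  have hT : ∀ v, v ∈ T ↔ Ram F' v := fun v => by
    rw [hTdef, Set.Finite.mem_toFinset]; rfl
  have hup0 : up f F ≠ 0 := by
    intro h
    exact hf.ne ((FaithfulSMul.algebraMap_injective (𝓞 K) (𝓞 F)) (by rw [map_zero]; exact h))
  have hupu : ¬ IsUnit (up f F) := by
    intro h
    apply hf.up_ne_top
    rw [Ideal.one_eq_top, Ideal.span_singleton_eq_top]
    exact h
  have hupℓ : IsCoprime (up f F) (ℓ : 𝓞 F) := by
    have h := hfℓ.map (algebraMap (𝓞 K) (𝓞 F))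
    rwa [map_natCast] at h
  obtain ⟨m, hm0, hm1, hm3, hm2, hmv'⟩ := exists_mod (up f F) (ℓ : 𝓞 F) hup0 hupu hupℓ T
    fun v hv => htame v ((hT v).mp hv)
  have hmv : ∀ v : HeightOneSpectrum (𝓞 F), m ≤ v.asIdeal ↔ up f F ∈ v.asIdeal ∨ Ram F' v := by
    intro v
    rw [hmv', hT]
  have hmr : ∀ v : HeightOneSpectrum (𝓞 F), Ram F' v → m ≤ v.asIdeal :=
    fun v hv => (hmv v).mpr (Or.inr hv)
  obtain ⟨ι, hι, J, G, hG, hJ, hGW, hfam⟩ := exists_family hf hℓ0 hV m hm0 hm1 hm3 hm2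
  obtain ⟨L, hLd, hL1, hLW⟩ := hU
  obtain ⟨L', hLd', hL1'⟩ := exists_cont hf.ovr hℓ0 hfℓ hV'
  -- the bad places
  have hBfin : {v : HeightOneSpectrum (𝓞 F) | m ≤ v.asIdeal}.Finite := by
    refine (Ideal.finite_factors hm0).subset fun v hv => ?_
    exact Ideal.dvd_iff_le.mpr hv
  set B := hBfin.toFinset with hBdef
  have hB : ∀ v, v ∈ B ↔ m ≤ v.asIdeal := fun v => by
    rw [hBdef, Set.Finite.mem_toFinset]; rfl
  -- the entire functions
  set G1 : ZMod ℓ → ℂ → ℂ := fun j s => ∑ i, chiM F' x m j (J i) * G i s with hG1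
  set G0 : ℂ → ℂ := fun s => ∑ i, G i s with hG0
  have hG1d : ∀ j, Differentiable ℂ (G1 j) := fun j =>
    Differentiable.fun_sum fun i _ => (differentiable_const _).mul (hG i)
  have hG0d : Differentiable ℂ G0 := Differentiable.fun_sum fun i _ => hG i
  have hG1L : ∀ j, ∀ s : ℂ, 2 < s.re → Lf (psChi F' Ψ x j) s = G1 j s := by
    intro j s hs
    have e : psChi F' Ψ x j = fun I => pB Ψ I * chiM F' x m j I :=
      funext fun I => psChi_eq hf x m (fun v hv => (hmv v).mp hv) j I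
    rw [e, hfam (chiM F' x m j) (fun I hI => chiM_of_not hI) (norm_chiM_le x m j)
      (chiM_ray x hx m hm0 hm1 hmr j) s hs]
  have hG0L : ∀ s : ℂ, 2 < s.re → Lf (fun I => pB Ψ I * indC m I) s = G0 s := by
    intro s hs
    rw [hfam (indC m) (fun I hI => indC_of_not hI) (norm_indC_le m) (indC_ray m) s hs]
    refine Finset.sum_congr rfl fun i _ => ?_
    rw [indC_of (hJ i), one_mul]
  -- identities of entire functions
  have id1 : G0 = fun s => L s * ∏ v ∈ B, (1 - pB Ψ v.asIdeal *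
      (Ideal.absNorm v.asIdeal : ℂ) ^ (-s)) := by
    refine entire_eq hG0d (hLd.mul (differentiable_euler B _)) fun s hs => ?_
    rw [← hG0L s hs, Lf_indC hf m B hB s hs, hL1 s hs]
  have id2 : L' = fun s => L s * ∏ j ∈ Finset.univ.erase (0 : ZMod ℓ), G1 j s := by
    refine entire_eq hLd' (hLd.mul (Differentiable.fun_finsetProd fun j _ => hG1d j))
      fun s hs => ?_
    rw [hL1' s hs, step_Lf hf hL x hx.split s hs, hL1 s hs]
    congr 1
    exact Finset.prod_congr rfl fun j _ => hG1L j s hs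
  refine ⟨L', hLd', hL1', fun W hW => ?_⟩
  set n := Module.finrank K F with hn_def
  have hn2 : Module.finrank K F' = n * ℓ := by
    rw [← Module.finrank_mul_finrank K F F', hL]
  -- value of `G0`
  have v0 : W.valuation (G0 1 / Om ^ n) = 1 := by
    rw [id1]
    change W.valuation (L 1 * _ / Om ^ n) = 1
    rw [mul_div_right_comm, map_mul, hLW W hW, one_mul, map_prod]
    refine Finset.prod_eq_one fun v hv => ?_
    rw [hB, hmv] at hv
    by_cases h3 : up f F ∈ v.asIdeal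
    · rw [pB_bad hf v h3, zero_mul, sub_zero, map_one]
    · have hr : Ram F' v := hv.resolve_left h3
      exact val_euler hf W hW v h3 (htame v hr) (hadm v hr h3)
  -- values of `G1 j`
  have v1 : ∀ j, W.valuation (G1 j 1 / Om ^ n) = 1 := by
    intro j
    have e : G1 j 1 / Om ^ n = G0 1 / Om ^ n +
        ∑ i, (chiM F' x m j (J i) - 1) * (G i 1 / Om ^ n) := by
      rw [hG1, hG0]
      simp only [Finset.sum_div, ← Finset.sum_add_distrib]
      refine Finset.sum_congr rfl fun i _ => ?_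
      ring
    rw [e]
    refine val_unit_add W v0 ?_
    refine Valuation.map_sum_lt _ one_ne_zero fun i _ => ?_
    rw [map_mul]
    exact mul_lt_one_of_lt_of_le
      (val_root W hW _ (chiM_pow x m hm1 hmr j (J i) (hJ i))) (hGW i W hW)
  have e3 : L' 1 / Om ^ (n * ℓ) = (L 1 / Om ^ n) *
      ∏ j ∈ Finset.univ.erase (0 : ZMod ℓ), (G1 j 1 / Om ^ n) := by
    have hcard : (Finset.univ.erase (0 : ZMod ℓ)).card = ℓ - 1 := by
      rw [Finset.card_erase_of_mem (Finset.mem_univ _), Finset.card_univ, ZMod.card]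
    have hpow : Om ^ (n * ℓ) = Om ^ n * (Om ^ n) ^ (ℓ - 1) := by
      rw [← pow_succ', Nat.sub_add_cancel hℓ.out.one_le, pow_mul]
    rw [id2, Finset.prod_div_distrib, Finset.prod_const, hcard, hpow, mul_div_mul_comm]
  rw [hn2, e3, map_mul, hLW W hW, one_mul, map_prod]
  exact Finset.prod_eq_one fun j _ => v1 j

end

end Pool.Agent.Lib.MP_1a91b9_nuY
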